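import Pool.Agent.H29.LG.Targets2

set_option autoImplicit false

/-!
# MP_c65535_nt, all radicals, row DPQL: the descent at one prime (helper63)

Twin of `Pool.Agent.H63.RQ.pf_DPQ`.
-/

namespace Pool.Agent.H63.LG

open NumberField Height Finset Polynomial Pool.Agent.H24.RD Pool.Agent.H23.RDD Pool.Agent.H29.RQ
  Pool.Agent.H29.SX Pool.Agent.H29.LG

theorem pf_DPQL (h1 : T_MON) (h2 : T_STCQ) (h3 : T_STKQ) (h4 : T_NUML) : T_DPQL := by
  intro F Ω _ _ _ _ _ _ _ p hp r γ hγ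
  obtain ⟨C1, hC⟩ := h2 F Ω p hp r γ hγ.1
  obtain ⟨C2, hK⟩ := h3 F Ω p hp r γ hγ
  set C : ℕ := C1 + C2 + 1 with hCdef
  set A : ℕ := 2 * (r + 2) * (C + 2) + 3 with hAdef
  obtain ⟨c0, C0, hc0, hnum⟩ := h4 p hp.two_le A
  have hp1 : (1 : ℝ) < (p : ℝ) := by exact_mod_cast hp.one_lt
  have hp0 : (0 : ℝ) < (p : ℝ) := by linarith
  refine ⟨min c0 (c0 ^ 2 / 4), 2 * C0, lt_min hc0 (by positivity), fun d hd => ?_⟩
  have hd1 : (1 : ℝ) ≤ (d : ℝ) := by exact_mod_cast hd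
  have hd0 : (0 : ℝ) < (d : ℝ) := by linarith
  have hL1 : 1 ≤ Real.log (3 * d) := by
    rw [Real.le_log_iff_exp_le (by positivity)]
    have := Real.exp_one_lt_d9
    linarith
  set Lam : ℝ := Real.log (3 * d) with hLam
  have hLam0 : 0 < Lam := by linarith
  obtain ⟨j, hj1, hj2⟩ := hnum d hd
  set R : ℕ := C + 2 * j with hRdef
  set k : ℕ := 2 * (r + 2) * R + 2 with hkdef
  have hRle : R ≤ (C + 2) * (j + 1) := by
    rw [hRdef]
    nlinarith
  have hkA : k ≤ A * (j + 1) := by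
    have e1 : 2 * (r + 2) * R ≤ 2 * (r + 2) * ((C + 2) * (j + 1)) := Nat.mul_le_mul_left _ hRle
    have e2 : A * (j + 1) = 2 * (r + 2) * ((C + 2) * (j + 1)) + 3 * (j + 1) := by
      rw [hAdef]; ring
    omega
  have hRA : (r + 1) * (2 * R) ≤ A * (j + 1) := by
    have e1 : (r + 1) * (2 * R) ≤ 2 * (r + 2) * R := by nlinarith
    omega
  have hEA : 2 * ((r + 1) * (2 * R)) + 1 ≤ 2 * (A * (j + 1)) := by
    have e1 : (r + 1) * (2 * R) ≤ 2 * (r + 2) * R := by nlinarith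
    omega
  have hc0d : c0 * (p : ℝ) ^ (A * (j + 1)) ≤ Lam ^ (2 * C0) :=
    hj2.trans (pow_le_pow_right₀ hL1 (by omega))
  refine ⟨k, ?_, ?_⟩
  · calc min c0 (c0 ^ 2 / 4) * (p : ℝ) ^ k ≤ c0 * (p : ℝ) ^ k :=
          mul_le_mul_of_nonneg_right (min_le_left _ _) (pow_nonneg hp0.le _)
      _ ≤ c0 * (p : ℝ) ^ (A * (j + 1)) :=
          mul_le_mul_of_nonneg_left (pow_le_pow_right₀ hp1.le hkA) hc0.le
      _ ≤ Lam ^ (2 * C0) := hc0d
  intro n m N' K' hmn hN' hK' α hα hh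
  -- the numerical conditions
  have hlogc : ∀ a : ℕ, a ≤ A * (j + 1) →
      4 * Real.log (d * (p : ℝ) ^ a) + 1 ≤ 2 * ((p : ℝ) ^ j - 1) * Real.log p := by
    intro a ha
    have e1 : Real.log (d * (p : ℝ) ^ a) ≤ Real.log (d * (p : ℝ) ^ (A * (j + 1))) := by
      refine Real.log_le_log (mul_pos hd0 (pow_pos hp0 _)) ?_
      exact mul_le_mul_of_nonneg_left (pow_le_pow_right₀ hp1.le ha) hd0.le
    linarith
  have hsq : c0 ^ 2 * (p : ℝ) ^ (2 * (A * (j + 1))) ≤ Lam ^ (2 * C0) := by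
    have e1 : (c0 * (p : ℝ) ^ (A * (j + 1))) ^ 2 ≤ (Lam ^ C0) ^ 2 :=
      pow_le_pow_left₀ (by positivity) hj2 2
    calc c0 ^ 2 * (p : ℝ) ^ (2 * (A * (j + 1))) = (c0 * (p : ℝ) ^ (A * (j + 1))) ^ 2 := by
          rw [mul_pow, ← pow_mul, mul_comm 2 (A * (j + 1))]
      _ ≤ (Lam ^ C0) ^ 2 := e1
      _ = Lam ^ (2 * C0) := by rw [← pow_mul, mul_comm]
  have hheight : ∀ a : ℕ, a ≤ 2 * (A * (j + 1)) →
      4 * d * (p : ℝ) ^ a * absLogHeight₁ α < 1 := by
    intro a ha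
    have hX : 0 < 4 * (d : ℝ) * (p : ℝ) ^ a := by positivity
    have hY : 0 < (d : ℝ) * Lam ^ (2 * C0) := by positivity
    have e1 : absLogHeight₁ α < c0 ^ 2 / 4 / (d * Lam ^ (2 * C0)) := by
      rw [lt_div_iff₀ hY]
      exact hh.trans_le (min_le_right _ _)
    have e2 : 4 * (d : ℝ) * (p : ℝ) ^ a * absLogHeight₁ α <
        4 * (d : ℝ) * (p : ℝ) ^ a * (c0 ^ 2 / 4 / (d * Lam ^ (2 * C0))) :=
      mul_lt_mul_of_pos_left e1 hX
    have e3 : 4 * (d : ℝ) * (p : ℝ) ^ a * (c0 ^ 2 / 4 / (d * Lam ^ (2 * C0))) ≤ 1 := by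
      rw [show 4 * (d : ℝ) * (p : ℝ) ^ a * (c0 ^ 2 / 4 / (d * Lam ^ (2 * C0))) =
        (c0 ^ 2 * (p : ℝ) ^ a * d) / (d * Lam ^ (2 * C0)) by ring, div_le_one hY]
      have e4 : c0 ^ 2 * (p : ℝ) ^ a ≤ Lam ^ (2 * C0) :=
        (mul_le_mul_of_nonneg_left (pow_le_pow_right₀ hp1.le ha) (by positivity)).trans hsq
      calc c0 ^ 2 * (p : ℝ) ^ a * d ≤ Lam ^ (2 * C0) * d := mul_le_mul_of_nonneg_right e4 hd0.le
        _ = d * Lam ^ (2 * C0) := by ring
    exact e2.trans_le e3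
  have hN'0 : 0 < N' := by
    rcases Nat.eq_zero_or_pos N' with h | h
    · rw [h] at hN'
      exact absurd (dvd_zero p) hN'
    · exact h
  have hK'0 : 0 < K' := Nat.pos_of_dvd_of_pos hK' hN'0
  have hpp : ∀ i : ℕ, 0 < p ^ i := fun i => pow_pos hp.pos i
  have hsmall : ∀ n m : ℕ, m ≤ n → n ≤ k → RepD F Ω γ (p ^ n * N') (p ^ m * K') d α →
      RepD F Ω γ (p ^ k * N') (p ^ k * K') d α := by
    intro n m hmn hn hr
    refine (h1 F Ω r γ hγ.1 _ _ _ _ d (Nat.mul_pos (hpp n) hN'0) (Nat.mul_pos (hpp m) hK'0)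
      ?_ ?_ ?_ (Nat.mul_pos (hpp _) hN'0) α).2 hr
    · exact Nat.mul_dvd_mul_right (pow_dvd_pow p hn) _
    · exact Nat.mul_dvd_mul_right (pow_dvd_pow p (hmn.trans hn)) _
    · exact Nat.mul_dvd_mul_left _ hK'
  have hR1 : 1 ≤ R := by omega
  have key : ∀ t n m : ℕ, n + m = t → m ≤ n → RepD F Ω γ (p ^ n * N') (p ^ m * K') d α →
      RepD F Ω γ (p ^ k * N') (p ^ k * K') d α := by
    intro t
    induction t with
    | zero =>
      intro n m ht hmn hr
      exact hsmall n m hmn (by omega) hr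
    | succ t ih =>
      intro n m ht hmn hr
      by_cases hn : n ≤ k
      · exact hsmall n m hmn hn hr
      · have hk1 : 2 * (r + 2) * R + 2 < n := by omega
        have hk2 : 2 * (r + 2) * R = (r + 1) * (2 * R) + 2 * R := by ring
        have hk3 : (r + 1) * (2 * R) = (r + 1) * R + (r + 1) * R := by ring
        by_cases hm : m + R ≤ n
        · have hnR : n - (n - R) = R := by omega
          have hr1 : RepD F Ω γ (p ^ (n - 1) * N') (p ^ m * K') d α := by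
            refine hC n m (n - R) j d N' K' hd (by omega) (by omega) (by omega) ?_ hN' hK' ?_ α hr ?_
            · rw [hnR]
              omega
            · rw [hnR]
              exact hlogc _ (by omega)
            · rw [hnR]
              exact hheight _ (by omega)
          exact ih (n - 1) m (by omega) (by omega) hr1
        · have hnR : n - (n - 2 * R) = 2 * R := by omega
          have hr1 : RepD F Ω γ (p ^ n * N') (p ^ (m - 1) * K') d α := by
            refine hK n m (n - 2 * R) j d N' K' hd (by omega) hmn ?_ hN' hK' ?_ α hr ?_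
            · rw [hnR]
              omega
            · rw [hnR]
              exact hlogc _ (by omega)
            · rw [hnR]
              exact hheight _ (by omega)
          exact ih n (m - 1) (by omega) (by omega) hr1
  exact key (n + m) n m rfl hmn hα

end Pool.Agent.H63.LG
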