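import Pool.Agent.H29.LG.Targets

/-!
# Row KEL: the key statement for automorphisms of the algebraic closure (helper63)

Twin of `Pool.Agent.H23.RQ.pf_KEYQ`.
-/

set_option autoImplicit false

namespace Pool.Agent.H63.LG

open NumberField Height Finset Polynomial Pool.Agent.H24.RD Pool.Agent.H23.RDD Pool.Agent.H29.RQ
  Pool.Agent.H29.SX Pool.Agent.H29.LG

/-- the height of `σ β * g`, where `g` is a radical -/
private theorem height_conj_mul (hHB : T_HB) (F Ω : Type) [Field F] [NumberField F] [Field Ω]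
    [CharZero Ω] [Algebra F Ω] [Algebra.IsAlgebraic F Ω] (σ : Ω ≃ₐ[F] Ω) (β g : Ω) (hg : g ≠ 0)
    (i : ℕ) (a : F) (hi : 0 < i) (hga : g ^ i = algebraMap F Ω a) :
    absLogHeight₁ (σ β * g) = absLogHeight₁ (β * g) := by
  have : Algebra.IsAlgebraic ℚ Ω := Algebra.IsAlgebraic.trans ℚ F Ω
  obtain ⟨-, -, -, -, htor, hconj, -⟩ := hHB Ω
  have hσg : σ g ≠ 0 := fun h => hg ((map_eq_zero σ).1 h)
  have h1 : (g / σ g) ^ i = 1 := by
    rw [div_pow, ← map_pow, hga, AlgEquiv.commutes, div_self]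
    rw [← hga]
    exact pow_ne_zero _ hg
  have h2 : σ β * g = (g / σ g) * σ (β * g) := by
    rw [map_mul]
    field_simp
  rw [h2, htor _ _ i hi h1]
  exact hconj (σ : Ω ≃+* Ω) (β * g)

private theorem norm_of_stable (F Ω : Type) [Field F] [Field Ω] [CharZero Ω] [Algebra F Ω]
    [IsAlgClosed Ω] [Algebra.IsAlgebraic F Ω] (E : IntermediateField F Ω)
    (h : ∀ (τ : Ω ≃ₐ[F] Ω), ∀ z ∈ E, τ z ∈ E) : Normal F E := by
  have : IsAlgClosure F Ω := ⟨inferInstance, inferInstance⟩
  have : Normal F Ω := IsAlgClosure.normal F Ω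
  refine IntermediateField.normal_iff_forall_map_le'.2 fun σ => ?_
  rintro _ ⟨x, hx, rfl⟩
  exact h σ x hx

theorem pf_KEL (h1 : T_HA) (h2 : T_HB) (h3 : T_RS) (h4 : T_FLD) (h5 : T_KEBL) : T_KEL := by
  classical
  intro F Ω _ _ _ _ _ _ _ p hp E₀ E hE hfd hEn hE0n hcard hcom hloc d β g hd hβ hg hcj hred hga
  obtain ⟨i, a, hi, hga, haw⟩ := hga
  have : IsAlgClosure F Ω := ⟨inferInstance, inferInstance⟩
  have : Normal F Ω := IsAlgClosure.normal F Ω
  have : Normal F E := norm_of_stable F Ω E hEn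
  have : FiniteDimensional ℚ E := FiniteDimensional.trans ℚ F _
  have : NumberField E := {}
  have : IsGalois F E := {}
  -- the big field
  obtain ⟨M, hMfd, hEM, hsM, hMn⟩ := h4 F Ω E hfd {β, g}
  have hβM : β ∈ M := hsM β (by simp)
  have hgM : g ∈ M := hsM g (by simp)
  have : FiniteDimensional ℚ M := FiniteDimensional.trans ℚ F _
  have : NumberField M := {}
  have : Normal F M := norm_of_stable F Ω M hMn
  have : IsGalois F M := {}
  let _ : Algebra E M := (IntermediateField.inclusion hEM).toRingHom.toAlgebra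
  have : IsScalarTower F E M := IsScalarTower.of_algebraMap_eq fun x => rfl
  have hlift : ∀ (σ : M ≃ₐ[F] M) (x : M), (σ.liftNormal Ω) (x : Ω) = ((σ x : M) : Ω) :=
    fun σ x => σ.liftNormal_commutes Ω x
  have hliftE : ∀ (σ : M ≃ₐ[F] M) (t : E → E), (∀ y : E, σ (algebraMap E M y) =
      algebraMap E M (t y)) → ∀ y : E, (σ.liftNormal Ω) (y : Ω) = ((t y : E) : Ω) := by
    intro σ t hσ y
    have e1 := hlift σ (algebraMap E M y)
    rw [hσ y] at e1
    exact e1
  set b : M := ⟨β, hβM⟩ with hb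
  set g' : M := ⟨g, hgM⟩ with hg'
  have hb0 : b ≠ 0 := fun h => hβ (congrArg (fun x : M => (x : Ω)) h)
  have hg0 : g' ≠ 0 := fun h => hg (congrArg (fun x : M => (x : Ω)) h)
  have hD0 : 0 < (Module.finrank ℚ M : ℝ) := by exact_mod_cast Module.finrank_pos
  have hAO : ∀ x : M, logHeight₁ x = (Module.finrank ℚ M : ℝ) * absLogHeight₁ (x : Ω) := by
    intro x
    have e1 : absLogHeight₁ (x : Ω) = logHeight₁ x / (Module.finrank ℚ M : ℝ) := h1 M Ω x
    rw [e1]
    field_simp
  -- the group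
  set res : (Ω ≃ₐ[F] Ω) →* (E ≃ₐ[F] E) := AlgEquiv.restrictNormalHom E with hres
  have hresc : ∀ (τ : Ω ≃ₐ[F] Ω) (y : E), ((res τ y : E) : Ω) = τ (y : Ω) :=
    fun τ y => τ.restrictNormal_commutes E y
  have hker : res.ker = E.fixingSubgroup := IntermediateField.restrictNormalHom_ker E
  set V : Subgroup (E ≃ₐ[F] E) := E₀.fixingSubgroup.map res with hV
  have hVcard : Nat.card V ≤ p := by
    have e1 : res.ker.relIndex E₀.fixingSubgroup = Nat.card (E₀.fixingSubgroup.map res) :=
      Subgroup.relIndex_ker E₀.fixingSubgroup res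
    rw [hker] at e1
    rw [hV, ← e1]
    exact hcard
  have hVcom : ∀ s ∈ V, ∀ t ∈ V, s * t = t * s := by
    rintro _ ⟨σ, hσ, rfl⟩ _ ⟨τ, hτ, rfl⟩
    ext z
    change (((res σ) ((res τ) z) : E) : Ω) = (((res τ) ((res σ) z) : E) : Ω)
    rw [hresc, hresc, hresc, hresc]
    exact hcom σ hσ τ hτ z z.2
  have hfix0 : ∀ σ ∈ E₀.fixingSubgroup, ∀ z ∈ E₀, σ z = z := fun σ hσ z hz =>
    (IntermediateField.mem_fixingSubgroup_iff E₀ σ).1 hσ z hz
  have hEE0 : E.fixingSubgroup ≤ E₀.fixingSubgroup := IntermediateField.fixingSubgroup_le hE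
  obtain ⟨B', hB'V, hB'1, hB'2⟩ := h5 F E M p hp V p d hp.pos hd hVcard hVcom b g' hb0 hg0
    (by
      obtain ⟨s, hs, hsσ⟩ := hcj
      refine ⟨s.preimage (fun x : M => (x : Ω)) Subtype.val_injective.injOn, ?_, ?_⟩
      · refine le_trans ?_ hs
        refine (Finset.card_le_card_of_injOn (fun x : M => (x : Ω)) ?_ ?_)
        · intro x hx
          exact Finset.mem_preimage.1 hx
        · intro x _ y _ h
          exact Subtype.ext h
      · intro σ hσ
        rw [Finset.mem_preimage]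
        have e1 := hsσ (σ.liftNormal Ω) (fun z hz => hliftE σ id hσ ⟨z, hz⟩)
        rw [← hlift σ b]
        exact e1)
    (by
      intro σ hσ hk
      have e1 := hred (σ.liftNormal Ω) (fun z hz => hliftE σ id hσ ⟨z, hz⟩) p hp.pos (by
          have e3 := congrArg (fun x : M => (x : Ω)) hk
          change (σ.liftNormal Ω) (b : Ω) ^ p = (b : Ω) ^ p
          rw [hlift σ b]
          exact e3)
      apply Subtype.ext
      rw [← hlift σ b]
      exact e1)
    (by
      intro v hv
      constructor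
      · obtain ⟨w0, k, hk, hw0⟩ := h3 F M v
        have e1 : v.1 ((p : M)) = (w0.1 (p : F)) ^ k := by
          rw [← hw0, map_natCast (algebraMap F M) p]
        have e2 : w0.1 (p : F) < 1 := by
          by_contra hc
          rw [not_lt] at hc
          have e3 := Real.one_le_rpow hc hk.le
          rw [← e1] at e3
          exact absurd hv (not_lt.2 e3)
        have e3 : v.1 (algebraMap F M a) = 1 := by
          rw [hw0, haw w0 e2, Real.one_rpow]
        have e4 : g' ^ i = algebraMap F M a := by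
          apply Subtype.ext
          exact hga
        have e5 : v.1 g' ^ i = 1 := by
          rw [← map_pow, e4, e3]
        exact (pow_eq_one_iff_of_nonneg (v.1.nonneg g') hi.ne').1 e5
      · rintro _ ⟨σ, hσ, rfl⟩ x
        have e1 := hloc σ (hfix0 σ hσ) M hEM v hv (algebraMap E M x) (algebraMap E M (res σ x))
          x.2 (hresc σ x)
        refine ⟨e1.1, fun hx => ?_⟩
        rw [map_sub]
        exact e1.2 hx)
    ((Module.finrank ℚ M : ℝ) * absLogHeight₁ (β * g))
    (by
      intro σ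
      rw [hAO]
      refine le_of_eq ?_
      have e1 : ((σ b * g' : M) : Ω) = (σ.liftNormal Ω) β * g := by
        have e2 := hlift σ b
        change ((σ b : M) : Ω) * g = _
        rw [← e2]
      rw [e1, height_conj_mul h2 F Ω (σ.liftNormal Ω) β g hg i a hi hga])
  refine ⟨B'.comap res, ?_, ?_, ?_, ?_⟩
  · rw [← hker]
    intro τ hτ
    rw [Subgroup.mem_comap, (MonoidHom.mem_ker).1 hτ]
    exact B'.one_mem
  · intro τ hτ
    obtain ⟨σ, hσ, he⟩ := hB'V hτ
    have e1 : σ⁻¹ * τ ∈ E.fixingSubgroup := by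
      rw [← hker, MonoidHom.mem_ker, map_mul, map_inv, he, inv_mul_cancel]
    have e2 := E₀.fixingSubgroup.mul_mem hσ (hEE0 e1)
    rwa [mul_inv_cancel_left] at e2
  · intro τ hτ
    obtain ⟨σ, hσ1, hσ2⟩ := hB'1 (res τ) hτ
    refine ⟨σ.liftNormal Ω, fun z hz => ?_, ?_⟩
    · have e1 := hliftE σ (res τ) hσ1 ⟨z, hz⟩
      rw [hresc] at e1
      exact e1
    · have e3 := congrArg (fun x : M => (x : Ω)) hσ2
      change (σ.liftNormal Ω) (b : Ω) ^ p = (b : Ω) ^ p
      rw [hlift σ b]
      exact e3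
  · have e1 : (B'.comap res).relIndex E₀.fixingSubgroup = B'.relIndex V :=
      Subgroup.relIndex_comap B' res E₀.fixingSubgroup
    rw [e1]
    have e2 : (Module.finrank ℚ M : ℝ) * (((B'.relIndex V : ℝ) - 1) * Real.log p) ≤
        (Module.finrank ℚ M : ℝ) * (2 * Real.log (d * p) +
          2 * d * (p : ℝ) ^ 2 * absLogHeight₁ (β * g)) := by
      refine hB'2.trans (le_of_eq ?_)
      ring
    exact le_of_mul_le_mul_left e2 hD0

end Pool.Agent.H63.LG
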